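import Pool.Agent.K9h47.Frechet.Main

/-!
# Fréchet modules without injective coresolutions

Over the Fréchet algebra `ℂ⟦z⟧` of formal power series (with identity) and over its maximal ideal
`z ℂ⟦z⟧` (without identity) every injective Fréchet module is zero.  Hence no non-zero Fréchet
module over one of these algebras has an injective coresolution.
-/

set_option autoImplicit false

universe v w

open Pool.Agent.K9h47.Frechet

namespace Pool.Agent.Results.MP_8296bc_an.NoCoresolution

/-- There is a commutative Fréchet algebra `A` with identity such that no non-zero Fréchet
`A`-module has an injective coresolution (here the identity acts as the identity map on modules),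
and there is also a commutative Fréchet algebra `A` without identity with the same property
(here there is no condition on the modules).  In both cases non-zero Fréchet modules exist. -/
theorem result :
    (∃ A : FrechetAlgebra.{0}, (∃ e : A.carrier, A.IsIdentity e) ∧
      (∀ a b : A.carrier, a * b = b * a) ∧
      (∃ X : FrechetModule.{0, 0} A, Nontrivial X.carrier) ∧
      ∀ X : FrechetModule.{0, v} A, Nontrivial X.carrier →
        ¬ FrechetModule.HasInjectiveCoresolution.{0, v, w} X) ∧
    (∃ A : FrechetAlgebra.{0}, (¬ ∃ e : A.carrier, A.IsIdentity e) ∧
      (∀ a b : A.carrier, a * b = b * a) ∧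
      (∃ X : FrechetModule.{0, 0} A, Nontrivial X.carrier) ∧
      ∀ X : FrechetModule.{0, v} A, Nontrivial X.carrier →
        ¬ FrechetModule.HasInjectiveCoresolution.{0, v, w} X) :=
  ⟨⟨algC, ⟨_, isIdentity_one_algC⟩, mul_comm_ps, exists_nontrivial_algC,
      fun X hX => not_hasInjectiveCoresolution
        (fun J hJ => subsingleton_of_isInjective divC J hJ) X hX⟩,
    ⟨alg0, fun ⟨e, he⟩ => not_isIdentity_alg0 e he, mul0_comm, exists_nontrivial_alg0,
      fun X hX => not_hasInjectiveCoresolution
        (fun J hJ => subsingleton_of_isInjective div0 J hJ) X hX⟩⟩

end Pool.Agent.Results.MP_8296bc_an.NoCoresolution
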